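import Mathlib
import Pool.Agent.H9.AB.RelNorm

/-!
# Project AB, module Unr (M1): unramified families

Let `F ⊆ K` be number fields, `Ω` an algebraically closed field with `discr K ≠ 0` in `Ω`
(that is, `char Ω` is unramified in `K`). A family `ψ_i : 𝓞 K → Ω`, `i < [K:F]`, over
`w : 𝓞 F → Ω` with `w(N(x + y X)) = ∏ (ψ_i x + X ψ_i y)` is injective and contains every
homomorphism `χ : 𝓞 K → Ω` over `w`.
-/

namespace H14AB

open Polynomial NumberField H9AB

section gram

variable (K : Type*) [Field K] [NumberField K] (Ω : Type*) [Field Ω]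

/-- a family of `[K:ℚ]` homomorphisms with the trace property is injective and complete if the
discriminant is not zero -/
theorem gram_complete (hd : ((NumberField.discr K : ℤ) : Ω) ≠ 0) (S : Type*) [Fintype S]
    (hS : Fintype.card S = Module.finrank ℚ K) (φ : S → (𝓞 K →+* Ω))
    (htr : ∀ y : 𝓞 K, ∑ s, φ s y = ((Algebra.trace ℤ (𝓞 K) y : ℤ) : Ω)) :
    Function.Injective φ ∧ ∀ χ : 𝓞 K →+* Ω, ∃ s, φ s = χ := by
  classical
  let b := RingOfIntegers.basis K
  have hcard : Fintype.card (Module.Free.ChooseBasisIndex ℤ (𝓞 K)) = Fintype.card S := by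
    rw [hS, ← RingOfIntegers.rank K, Module.finrank_eq_card_chooseBasisIndex]
  let e : Module.Free.ChooseBasisIndex ℤ (𝓞 K) ≃ S := Fintype.equivOfCardEq hcard
  let A : Matrix (Module.Free.ChooseBasisIndex ℤ (𝓞 K)) (Module.Free.ChooseBasisIndex ℤ (𝓞 K)) Ω :=
    Matrix.of fun i j => φ (e i) (b j)
  have hG : A.transpose * A = (Algebra.traceMatrix ℤ b).map (Int.castRingHom Ω) := by
    ext i j
    rw [Matrix.mul_apply, Matrix.map_apply, Algebra.traceMatrix_apply, Algebra.traceForm_apply]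
    show _ = ((Algebra.trace ℤ (𝓞 K) (b i * b j) : ℤ) : Ω)
    rw [← htr, ← Equiv.sum_comp e]
    refine Finset.sum_congr rfl fun k _ => ?_
    simp [A, Matrix.transpose_apply, map_mul]
  have hdet : A.det ≠ 0 := by
    intro h0
    apply hd
    have h1 : (A.transpose * A).det = 0 := by rw [Matrix.det_mul, h0, mul_zero]
    rw [hG, ← RingHom.mapMatrix_apply, ← RingHom.map_det] at h1
    exact h1
  have hinj : Function.Injective φ := by
    intro s t hst
    by_contra hne
    apply hdet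
    refine Matrix.det_zero_of_row_eq (i := e.symm s) (j := e.symm t)
      (fun h => hne (e.symm.injective h)) ?_
    ext j
    simp [A, hst]
  refine ⟨hinj, fun χ => ?_⟩
  by_contra hχ
  push Not at hχ
  -- the vector of `χ` is a combination of the rows
  have hu : IsUnit A.det := isUnit_iff_ne_zero.2 hdet
  obtain ⟨c, hc⟩ : ∃ c : Module.Free.ChooseBasisIndex ℤ (𝓞 K) → Ω,
      Matrix.vecMul c A = fun j => χ (b j) := by
    refine ⟨Matrix.vecMul (fun j => χ (b j)) A⁻¹, ?_⟩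
    rw [Matrix.vecMul_vecMul, Matrix.nonsing_inv_mul _ hu, Matrix.vecMul_one]
  -- additive extension
  have hall : ∀ x : 𝓞 K, χ x = ∑ i, c i * φ (e i) x := by
    intro x
    have h1 : x = ∑ j, (b.repr x j) • b j := (b.sum_repr x).symm
    have h2 : ∀ ρ : 𝓞 K →+* Ω, ρ x = ∑ j, ((b.repr x j : ℤ) : Ω) * ρ (b j) := by
      intro ρ
      conv_lhs => rw [h1]
      rw [map_sum]
      refine Finset.sum_congr rfl fun j _ => ?_
      rw [zsmul_eq_mul, map_mul, map_intCast]
    rw [h2 χ]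
    simp_rw [h2 (φ _)]
    simp_rw [Finset.mul_sum]
    rw [Finset.sum_comm]
    refine Finset.sum_congr rfl fun j _ => ?_
    have h3 := congrFun hc j
    have h4 : χ (b j) = ∑ i, c i * φ (e i) (b j) := by
      rw [← h3]
      rfl
    rw [h4, Finset.mul_sum]
    refine Finset.sum_congr rfl fun i _ => ?_
    ring
  -- Dedekind independence
  let g : Option (Module.Free.ChooseBasisIndex ℤ (𝓞 K)) → (𝓞 K →* Ω) := fun o =>
    match o with
    | none => (χ : 𝓞 K →* Ω)
    | some i => ((φ (e i) : 𝓞 K →+* Ω) : 𝓞 K →* Ω)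
  have hg : Function.Injective g := by
    have hcoe : ∀ ρ ρ' : 𝓞 K →+* Ω, (ρ : 𝓞 K →* Ω) = (ρ' : 𝓞 K →* Ω) → ρ = ρ' := by
      intro ρ ρ' h
      ext x
      exact DFunLike.congr_fun h x
    rintro (_ | i) (_ | j) h
    · rfl
    · exact absurd (hcoe _ _ h).symm (hχ _)
    · exact absurd (hcoe _ _ h) (hχ _)
    · exact congrArg some (e.injective (hinj (hcoe _ _ h)))
  have hli := (linearIndependent_monoidHom (𝓞 K) Ω).comp g hg
  rw [Fintype.linearIndependent_iff] at hli
  have h5 := hli (fun o => match o with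
    | none => 1
    | some i => - c i) (by
      funext x
      rw [Fintype.sum_option]
      simp only [Function.comp, g, one_smul, Pi.add_apply, Finset.sum_apply, Pi.smul_apply,
        smul_eq_mul, Pi.zero_apply]
      show χ x + ∑ i, -c i * φ (e i) x = 0
      rw [hall x, ← Finset.sum_add_distrib]
      exact Finset.sum_eq_zero fun i _ => by ring) none
  exact one_ne_zero h5

end gram

section trace

variable (L : Type*) [Field L] [NumberField L] (K : Type*) [Field K] [NumberField K] [Algebra L K]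

/-- the coefficient of `X` of `∏ (1 + X c_i)` -/
theorem coeff_one_prod {R : Type*} [CommRing R] {ι : Type*} (s : Finset ι) (c : ι → R) :
    (∏ i ∈ s, (C 1 + X * C (c i) : R[X])).coeff 0 = 1 ∧
    (∏ i ∈ s, (C 1 + X * C (c i) : R[X])).coeff 1 = ∑ i ∈ s, c i := by
  classical
  induction s using Finset.induction_on with
  | empty => simp [coeff_one]
  | insert a s ha ih =>
    rw [Finset.prod_insert ha, Finset.sum_insert ha]
    refine ⟨?_, ?_⟩
    · rw [mul_coeff_zero, ih.1]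
      simp
    · rw [add_mul, coeff_add, coeff_C_mul, one_mul, ih.2, mul_assoc, coeff_X_mul, coeff_C_mul,
        ih.1, mul_one, add_comm]

/-- the relative trace of an algebraic integer -/
noncomputable def trR (y : 𝓞 K) : 𝓞 L := (nfR L K 1 y).coeff 1

theorem coe_trR (y : 𝓞 K) : ((trR L K y : 𝓞 L) : L) = Algebra.trace L K (y : K) := by
  classical
  let E := AlgebraicClosure K
  have hE : Fintype.card (K →ₐ[L] E) = Module.finrank L K := AlgHom.card L K E
  apply (algebraMap L E).injective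
  rw [trace_eq_sum_embeddings E (K := L) (L := K)]
  have h1 : ((trR L K y : 𝓞 L) : L) = (nfL L K ((1 : 𝓞 K) : K) (y : K)).coeff 1 := by
    rw [← nfR_map, coeff_map]
    rfl
  rw [h1, ← coeff_map, nfL_map_prod L K E hE]
  have h2 : (∏ σ : K →ₐ[L] E, (C (σ ((1 : 𝓞 K) : K)) + X * C (σ (y : K)))) =
      ∏ σ : K →ₐ[L] E, (C 1 + X * C (σ (y : K))) := by
    refine Finset.prod_congr rfl fun σ _ => ?_
    rw [show ((1 : 𝓞 K) : K) = 1 from rfl, map_one σ]
  rw [h2, (coeff_one_prod _ _).2]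

theorem sum_fam {Ω : Type*} [Field Ω] (w : 𝓞 L →+* Ω) {S : Type*} [Fintype S]
    (ψ : S → (𝓞 K →+* Ω))
    (h : ∀ x y : 𝓞 K, (nfR L K x y).map w = ∏ i, (C (ψ i x) + X * C (ψ i y))) (y : 𝓞 K) :
    ∑ i, ψ i y = w (trR L K y) := by
  have h1 := congrArg (fun P => P.coeff 1) (h 1 y)
  simp only [coeff_map, map_one] at h1
  have h2 := (coeff_one_prod (Finset.univ : Finset S) (fun i => ψ i y)).2
  simp only [map_one] at h2
  rw [h2] at h1
  exact h1.symm

end trace

section main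

variable (F : Type*) [Field F] [NumberField F] (K : Type*) [Field K] [NumberField K] [Algebra F K]
  (Ω : Type*) [Field Ω] [IsAlgClosed Ω]

/-- families over a family: the trace property over `ℚ` -/
theorem fam_unram_discr (hd : ((NumberField.discr K : ℤ) : Ω) ≠ 0) (w : 𝓞 F →+* Ω)
    (ψ : Fin (Module.finrank F K) → (𝓞 K →+* Ω))
    (_h1 : ∀ i, (ψ i).comp (algebraMap (𝓞 F) (𝓞 K)) = w)
    (h2 : ∀ x y : 𝓞 K, (nfR F K x y).map w = ∏ i, (C (ψ i x) + X * C (ψ i y))) :
    Function.Injective ψ ∧ ∀ χ : 𝓞 K →+* Ω, χ.comp (algebraMap (𝓞 F) (𝓞 K)) = w → ∃ i, ψ i = χ := by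
  classical
  -- the homomorphism of `𝓞 ℚ`
  let w0 : 𝓞 ℚ →+* Ω := w.comp (algebraMap (𝓞 ℚ) (𝓞 F))
  obtain ⟨u, hu1, hu2⟩ := exists_relFam ℚ F Ω w0
  -- families over the `u j`
  have hex : ∀ j, ∃ θ : Fin (Module.finrank F K) → (𝓞 K →+* Ω),
      (∀ i, (θ i).comp (algebraMap (𝓞 F) (𝓞 K)) = u j) ∧
      ∀ x y : 𝓞 K, (nfR F K x y).map (u j) = ∏ i, (C (θ i x) + X * C (θ i y)) :=
    fun j => exists_relFam F K Ω (u j)
  -- completeness for any choice
  have key : ∀ Θ : Fin (Module.finrank ℚ F) → Fin (Module.finrank F K) → (𝓞 K →+* Ω),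
      (∀ j, ∀ x y : 𝓞 K, (nfR F K x y).map (u j) = ∏ i, (C (Θ j i x) + X * C (Θ j i y))) →
      (∀ j j' i i', Θ j i = Θ j' i' → j = j' ∧ i = i') ∧ ∀ χ : 𝓞 K →+* Ω, ∃ j i, Θ j i = χ := by
    intro Θ hΘ
    have hcard : Fintype.card (Fin (Module.finrank ℚ F) × Fin (Module.finrank F K)) =
        Module.finrank ℚ K := by
      rw [Fintype.card_prod, Fintype.card_fin, Fintype.card_fin, Module.finrank_mul_finrank]
    have htr : ∀ y : 𝓞 K, ∑ s : Fin (Module.finrank ℚ F) × Fin (Module.finrank F K),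
        Θ s.1 s.2 y = ((Algebra.trace ℤ (𝓞 K) y : ℤ) : Ω) := by
      intro y
      rw [Fintype.sum_prod_type]
      have hj : ∀ j, ∑ i, Θ j i y = u j (trR F K y) := fun j => sum_fam F K (u j) (Θ j) (hΘ j) y
      simp_rw [hj]
      rw [sum_fam ℚ F w0 u hu2]
      have h3 : trR ℚ F (trR F K y) = ((Algebra.trace ℤ (𝓞 K) y : ℤ) : 𝓞 ℚ) := by
        apply RingOfIntegers.coe_injective
        rw [map_intCast]
        show ((trR ℚ F (trR F K y) : 𝓞 ℚ) : ℚ) = _
        rw [coe_trR, coe_trR, Algebra.trace_trace, Algebra.coe_trace_int]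
      rw [h3, map_intCast]
    obtain ⟨g1, g2⟩ := gram_complete K Ω hd _ hcard (fun s => Θ s.1 s.2) htr
    refine ⟨fun j j' i i' h => ?_, fun χ => ?_⟩
    · have := @g1 (j, i) (j', i') h
      exact ⟨congrArg Prod.fst this, congrArg Prod.snd this⟩
    · obtain ⟨s, hs⟩ := g2 χ
      exact ⟨s.1, s.2, hs⟩
  choose Θ hΘ1 hΘ2 using hex
  obtain ⟨k1, k2⟩ := key Θ hΘ2
  -- `w` is one of the `u j`
  obtain ⟨χ0, hχ0⟩ := exists_lift_hom F K Ω w
  obtain ⟨j0, i0, h0⟩ := k2 χ0
  have hw : u j0 = w := by rw [← hΘ1 j0 i0, h0, hχ0]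
  have hpos : 0 < Module.finrank F K := Module.finrank_pos
  -- the `u j` are distinct
  have huniq : ∀ j, u j = u j0 → j = j0 := by
    intro j hj
    by_contra hne
    -- replace the family over `u j` by the family over `u j0`
    obtain ⟨g1, -⟩ := key (fun j' => if j' = j then Θ j0 else Θ j') (by
      intro j' x y
      by_cases h : j' = j
      · subst h
        simp only [if_true]
        rw [hj]
        exact hΘ2 j0 x y
      · simp only [h, if_false]
        exact hΘ2 j' x y)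
    have h5 := g1 j j0 ⟨0, hpos⟩ ⟨0, hpos⟩ (by
      simp only [if_true]
      rw [if_neg (Ne.symm hne)])
    exact hne h5.1
  -- use the given family at `j0`
  obtain ⟨g1, g2⟩ := key (fun j => if j = j0 then ψ else Θ j) (by
    intro j x y
    by_cases h : j = j0
    · subst h
      simp only [if_true]
      rw [hw]
      exact h2 x y
    · simp only [h, if_false]
      exact hΘ2 j x y)
  refine ⟨fun i i' h => ?_, fun χ hχ => ?_⟩
  · exact (g1 j0 j0 i i' (by simpa using h)).2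
  · obtain ⟨j, i, hji⟩ := g2 χ
    by_cases h : j = j0
    · subst h
      exact ⟨i, by simpa using hji⟩
    · exfalso
      apply h
      apply huniq
      rw [if_neg h] at hji
      rw [← hΘ1 j i, hji, hχ, hw]

end main

/-- the version for a prime `p` not dividing the discriminant of `K` -/
theorem fam_unram_prime (F : Type*) [Field F] [NumberField F] (K : Type*) [Field K] [NumberField K]
    [Algebra F K] (p : ℕ) (hp : ¬ (p : ℤ) ∣ NumberField.discr K)
    (Ω : Type*) [Field Ω] [IsAlgClosed Ω] [CharP Ω p] (w : 𝓞 F →+* Ω)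
    (ψ : Fin (Module.finrank F K) → (𝓞 K →+* Ω))
    (h1 : ∀ i, (ψ i).comp (algebraMap (𝓞 F) (𝓞 K)) = w)
    (h2 : ∀ x y : 𝓞 K, (nfR F K x y).map w = ∏ i, (C (ψ i x) + X * C (ψ i y))) :
    Function.Injective ψ ∧
      ∀ χ : 𝓞 K →+* Ω, χ.comp (algebraMap (𝓞 F) (𝓞 K)) = w → ∃ i, ψ i = χ :=
  fam_unram_discr F K Ω (fun h => hp ((CharP.intCast_eq_zero_iff Ω p _).1 h)) w ψ h1 h2

/-- the version for a prime `p` unramified in `K` -/
theorem fam_unram_in (F : Type*) [Field F] [NumberField F] (K : Type*) [Field K] [NumberField K]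
    [Algebra F K] (p : ℕ) (hp : p.Prime) (hu : Algebra.IsUnramifiedIn (𝓞 K) (Ideal.span {(p : ℤ)}))
    (Ω : Type*) [Field Ω] [IsAlgClosed Ω] [CharP Ω p] (w : 𝓞 F →+* Ω)
    (ψ : Fin (Module.finrank F K) → (𝓞 K →+* Ω))
    (h1 : ∀ i, (ψ i).comp (algebraMap (𝓞 F) (𝓞 K)) = w)
    (h2 : ∀ x y : 𝓞 K, (nfR F K x y).map w = ∏ i, (C (ψ i x) + X * C (ψ i y))) :
    Function.Injective ψ ∧
      ∀ χ : 𝓞 K →+* Ω, χ.comp (algebraMap (𝓞 F) (𝓞 K)) = w → ∃ i, ψ i = χ :=
  fam_unram_prime F K p ((NumberField.not_dvd_discr_iff_isUnramifiedIn K (𝓞 K)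
    (Nat.prime_iff_prime_int.1 hp)).2 hu) Ω w ψ h1 h2

/-- the number of homomorphisms over `w` -/
theorem card_over (F : Type*) [Field F] [NumberField F] (K : Type*) [Field K] [NumberField K]
    [Algebra F K] (Ω : Type*) [Field Ω] [IsAlgClosed Ω]
    (hd : ((NumberField.discr K : ℤ) : Ω) ≠ 0) (w : 𝓞 F →+* Ω) :
    Nat.card {χ : 𝓞 K →+* Ω // χ.comp (algebraMap (𝓞 F) (𝓞 K)) = w} = Module.finrank F K := by
  obtain ⟨ψ, h1, h2⟩ := exists_relFam F K Ω w
  obtain ⟨g1, g2⟩ := fam_unram_discr F K Ω hd w ψ h1 h2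
  have e : Fin (Module.finrank F K) ≃
      {χ : 𝓞 K →+* Ω // χ.comp (algebraMap (𝓞 F) (𝓞 K)) = w} :=
    Equiv.ofBijective (fun i => ⟨ψ i, h1 i⟩)
      ⟨fun i j h => g1 (congrArg Subtype.val h), fun χ => by
        obtain ⟨i, hi⟩ := g2 χ.1 χ.2
        exact ⟨i, Subtype.ext hi⟩⟩
  rw [← Nat.card_congr e, Nat.card_fin]

/-- (M1) as asked: a number `N` depending on `F`, `K` only -/
theorem fam_unram (F : Type*) [Field F] [NumberField F] (K : Type*) [Field K] [NumberField K]
    [Algebra F K] : ∃ N : ℕ, N ≠ 0 ∧ ∀ (Ω : Type) [Field Ω] [IsAlgClosed Ω], (N : Ω) ≠ 0 →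
      ∀ (w : 𝓞 F →+* Ω) (ψ : Fin (Module.finrank F K) → (𝓞 K →+* Ω)),
      (∀ i, (ψ i).comp (algebraMap (𝓞 F) (𝓞 K)) = w) →
      (∀ x y : 𝓞 K, (nfR F K x y).map w = ∏ i, (C (ψ i x) + X * C (ψ i y))) →
      Function.Injective ψ ∧
        ∀ χ : 𝓞 K →+* Ω, χ.comp (algebraMap (𝓞 F) (𝓞 K)) = w → ∃ i, ψ i = χ := by
  refine ⟨(NumberField.discr K).natAbs, Int.natAbs_ne_zero.2 (NumberField.discr_ne_zero K),
    fun Ω _ _ hN w ψ h1 h2 => fam_unram_discr F K Ω (fun h => hN ?_) w ψ h1 h2⟩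
  rcases Int.natAbs_eq (NumberField.discr K) with h3 | h3
  · rw [h3, Int.cast_natCast] at h
    exact h
  · rw [h3, Int.cast_neg, Int.cast_natCast, neg_eq_zero] at h
    exact h

end H14AB
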